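import Mathlib

open MeasureTheory Set Filter Topology Asymptotics
open scoped Pointwise

set_option linter.unusedSectionVars false

namespace Pool.Agent.Results.MP_840fa9_an.UCgUC

/-- `J` is `ℝ`, a closed half-line `[α,∞)` or an open half-line `(α,∞)`. -/
def Admissible (J : Set ℝ) : Prop := J = univ ∨ ∃ α : ℝ, J = Ici α ∨ J = Ioi α

/-- `g(t) = e^{it^2}`. -/
noncomputable def g (t : ℝ) : ℂ := Complex.exp (Complex.I * (t : ℂ) ^ 2)

section defs
variable {X : Type*} [NormedAddCommGroup X] [NormedSpace ℂ X]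

/-- `F` belongs to `UC(J,X) + g UC(J,X)`. -/
def IsUCgUC (J : Set ℝ) (F : ℝ → X) : Prop :=
  ∃ u v : ℝ → X, UniformContinuousOn u J ∧ UniformContinuousOn v J ∧ ∀ t ∈ J, F t = u t + g t • v t

/-- Bochner integrable on every compact subinterval of `J`. -/
def IsL1loc (J : Set ℝ) (f : ℝ → X) : Prop :=
  ∀ a ∈ J, ∀ b ∈ J, IntegrableOn f (Icc a b) volume

/-- Property `(Δ)` of a class `A` of functions on `J`. -/
def SatDelta (J : Set ℝ) (A : (ℝ → X) → Prop) : Prop :=
  ∀ f : ℝ → X, IsL1loc J f → (∀ a : ℝ, 0 < a → A (fun t => f (t + a) - f t)) →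
    ∀ h : ℝ, 0 < h → A (fun t => f t - (1 / h) • ∫ s in t..(t + h), f s)

end defs

variable {X : Type*} [NormedAddCommGroup X] [NormedSpace ℂ X] {J : Set ℝ}

lemma adm_up (hJ : Admissible J) {t s : ℝ} (ht : t ∈ J) (hts : t ≤ s) : s ∈ J := by
  rcases hJ with rfl | ⟨α, rfl | rfl⟩
  · trivial
  · exact le_trans (show α ≤ t from ht) hts
  · exact lt_of_lt_of_le (show α < t from ht) hts

lemma adm_far (hJ : Admissible J) : J = univ ∨ ∃ α : ℝ, Ioi α ⊆ J ∧ ∀ t ∈ J, α ≤ t := by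
  rcases hJ with rfl | ⟨α, rfl | rfl⟩
  · exact Or.inl rfl
  · exact Or.inr ⟨α, Ioi_subset_Ici_self, fun t ht => ht⟩
  · exact Or.inr ⟨α, subset_rfl, fun t ht => le_of_lt ht⟩

/-- the filter `|t| → ∞, t ∈ J`. -/
def FJ (J : Set ℝ) : Filter ℝ := comap (fun t : ℝ => |t|) atTop ⊓ 𝓟 J

lemma ev_FJ {p : ℝ → Prop} :
    (∀ᶠ t in FJ J, p t) ↔ ∃ T : ℝ, ∀ t ∈ J, T ≤ |t| → p t := by
  unfold FJ
  rw [eventually_inf_principal, eventually_comap]
  constructor
  · intro h
    obtain ⟨T, hT⟩ := eventually_atTop.1 h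
    exact ⟨T, fun t ht hTt => hT _ hTt t rfl ht⟩
  · rintro ⟨T, hT⟩
    exact eventually_atTop.2 ⟨T, fun b hb t htb ht => hT t ht (by rw [htb]; exact hb)⟩

lemma ev_mem : ∀ᶠ t in FJ J, t ∈ J := ev_FJ.2 ⟨0, fun _ ht _ => ht⟩

lemma abs_atTop : Tendsto (fun t : ℝ => |t|) (FJ J) atTop :=
  tendsto_comap.mono_left inf_le_left

lemma ev_one : ∀ᶠ t in FJ J, 1 ≤ |t| := abs_atTop.eventually_ge_atTop 1

lemma ev_sub (hJ : Admissible J) (a : ℝ) : ∀ᶠ t in FJ J, t - a ∈ J := by
  rcases adm_far hJ with rfl | ⟨α, h1, h2⟩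
  · exact Eventually.of_forall fun _ => trivial
  · refine ev_FJ.2 ⟨|α| + 1 + |a|, fun t ht hT => h1 ?_⟩
    have h3 := h2 t ht
    have h4 := neg_abs_le α
    have h5 := le_abs_self α
    have h6 := le_abs_self a
    have h7 := abs_nonneg a
    rcases abs_cases t with ⟨h8, h9⟩ | ⟨h8, h9⟩
    · show α < t - a
      linarith
    · exfalso
      linarith

lemma tendsto_sub_FJ (hJ : Admissible J) (a : ℝ) : Tendsto (fun t : ℝ => t - a) (FJ J) (FJ J) := by
  have h1 : Tendsto (fun t : ℝ => |t - a|) (FJ J) atTop := by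
    refine tendsto_atTop_mono (fun t => ?_) (tendsto_atTop_add_const_right _ (-|a|) abs_atTop)
    have := abs_sub_abs_le_abs_sub t a
    linarith
  refine tendsto_inf.2 ⟨tendsto_comap_iff.2 h1, tendsto_principal.2 (ev_sub hJ a)⟩

/-- moves `t` away from `0` so that the square grows by `s` -/
noncomputable def sg (s t : ℝ) : ℝ := if 0 ≤ t then √(t ^ 2 + s) else -√(t ^ 2 + s)

lemma sg_sq {s : ℝ} (hs : 0 ≤ s) (t : ℝ) : (sg s t) ^ 2 = t ^ 2 + s := by
  have h : 0 ≤ t ^ 2 + s := by positivity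
  unfold sg
  split_ifs
  · exact Real.sq_sqrt h
  · rw [neg_sq]; exact Real.sq_sqrt h

lemma sg_mem (hJ : Admissible J) {s : ℝ} (hs : 0 ≤ s) : ∀ᶠ t in FJ J, sg s t ∈ J := by
  rcases adm_far hJ with rfl | ⟨α, h1, h2⟩
  · exact Eventually.of_forall fun _ => trivial
  · refine ev_FJ.2 ⟨|α| + 1, fun t ht hT => ?_⟩
    have h3 := h2 t ht
    have h4 := neg_abs_le α
    have h5 := abs_nonneg α
    have h9 : 0 ≤ t := by
      by_contra hneg
      push Not at hneg
      rw [abs_of_neg hneg] at hT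
      linarith
    unfold sg
    rw [if_pos h9]
    refine adm_up hJ ht (Real.le_sqrt_of_sq_le ?_)
    linarith

lemma sg_sub {s : ℝ} (hs : 0 ≤ s) {t : ℝ} (ht : 1 ≤ |t|) : |sg s t - t| ≤ s / |t| := by
  have ht0 : 0 < |t| := by linarith
  have h2 : |sg s t - t| = √(t ^ 2 + s) - |t| := by
    have h3 : |t| ≤ √(t ^ 2 + s) := Real.le_sqrt_of_sq_le (by rw [sq_abs]; linarith)
    unfold sg
    split_ifs with h
    · rw [abs_of_nonneg h] at h3 ⊢
      rw [abs_of_nonneg (by linarith)]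
    · push Not at h
      rw [abs_of_neg h] at h3 ⊢
      rw [abs_of_nonpos (by linarith)]
      ring
  rw [h2, le_div_iff₀ ht0]
  have h4 : (√(t ^ 2 + s)) ^ 2 = t ^ 2 + s := Real.sq_sqrt (by positivity)
  have h5 : |t| ^ 2 = t ^ 2 := sq_abs t
  have h6 : |t| ≤ √(t ^ 2 + s) := Real.le_sqrt_of_sq_le (by rw [sq_abs]; linarith)
  nlinarith [abs_nonneg t]

lemma norm_g (t : ℝ) : ‖g t‖ = 1 := by
  unfold g
  rw [show Complex.I * (t : ℂ) ^ 2 = ((t ^ 2 : ℝ) : ℂ) * Complex.I by push_cast; ring]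
  exact Complex.norm_exp_ofReal_mul_I _

/-- the unimodular factor `e^{2iat+ia^2}` -/
noncomputable def e (a t : ℝ) : ℂ := Complex.exp (((2 * a * t + a ^ 2 : ℝ) : ℂ) * Complex.I)

lemma norm_e (a t : ℝ) : ‖e a t‖ = 1 := Complex.norm_exp_ofReal_mul_I _

lemma g_add (a t : ℝ) : g (t + a) = g t * e a t := by
  unfold g e
  rw [← Complex.exp_add]
  congr 1
  push_cast
  ring

lemma exp_lip (x y : ℝ) : ‖Complex.exp ((x : ℂ) * Complex.I) - Complex.exp ((y : ℂ) * Complex.I)‖
    ≤ |x - y| := by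
  have h : Complex.exp ((x : ℂ) * Complex.I) - Complex.exp ((y : ℂ) * Complex.I)
      = Complex.exp ((y : ℂ) * Complex.I) * (Complex.exp (Complex.I * ((x - y : ℝ) : ℂ)) - 1) := by
    rw [mul_sub, ← Complex.exp_add, mul_one]
    congr 2
    push_cast
    ring
  rw [h, norm_mul, Complex.norm_exp_ofReal_mul_I, one_mul]
  exact Real.norm_exp_I_mul_ofReal_sub_one_le

lemma ucadd {u v : ℝ → X} (hu : UniformContinuousOn u J) (hv : UniformContinuousOn v J) :
    UniformContinuousOn (fun t => u t + v t) J := by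
  rw [uniformContinuousOn_iff_restrict] at *
  exact hu.add hv

lemma ucsub {u v : ℝ → X} (hu : UniformContinuousOn u J) (hv : UniformContinuousOn v J) :
    UniformContinuousOn (fun t => u t - v t) J := by
  rw [uniformContinuousOn_iff_restrict] at *
  exact hu.sub hv

lemma uc_comp_add {E : Type*} [PseudoMetricSpace E] (hJ : Admissible J) {v : ℝ → E}
    (hv : UniformContinuousOn v J) {a : ℝ} (ha : 0 < a) :
    UniformContinuousOn (fun t => v (t + a)) J := by
  rw [Metric.uniformContinuousOn_iff] at *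
  intro ε hε
  obtain ⟨δ, hδ, h⟩ := hv ε hε
  refine ⟨δ, hδ, fun x hx y hy hxy => ?_⟩
  exact h _ (adm_up hJ hx (by linarith)) _ (adm_up hJ hy (by linarith)) (by simpa using hxy)

/-- linear growth of uniformly continuous functions -/
lemma uc_growth (hJ : Admissible J) {w : ℝ → X} (hw : UniformContinuousOn w J) :
    ∃ C : ℝ, 0 ≤ C ∧ ∀ x ∈ J, ∀ y ∈ J, ‖w x - w y‖ ≤ C * (1 + |x - y|) := by
  obtain ⟨δ, hδ, h⟩ := Metric.uniformContinuousOn_iff.1 hw 1 one_pos
  have hN : ∀ N : ℕ, ∀ x ∈ J, ∀ y, x ≤ y → y ≤ x + N * (δ / 2) → ‖w y - w x‖ ≤ N := by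
    intro N
    induction N with
    | zero =>
      intro x hx y hxy hy
      have : y = x := le_antisymm (by simpa using hy) hxy
      rw [this]
      simp
    | succ N ih =>
      intro x hx y hxy hy
      push_cast at hy ⊢
      by_cases hc : y ≤ x + N * (δ / 2)
      · have := ih x hx y hxy hc
        linarith
      · push Not at hc
        have hz : x + N * (δ / 2) ∈ J := adm_up hJ hx (by
          have : 0 ≤ (N : ℝ) * (δ / 2) := by positivity
          linarith)
        have h1 := ih x hx (x + N * (δ / 2)) (by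
          have : 0 ≤ (N : ℝ) * (δ / 2) := by positivity
          linarith) le_rfl
        have h2 := h y (adm_up hJ hx hxy) _ hz (by
          rw [Real.dist_eq, abs_of_pos (by linarith)]
          linarith)
        rw [dist_eq_norm] at h2
        have h3 := norm_add_le (w y - w (x + N * (δ / 2))) (w (x + N * (δ / 2)) - w x)
        rw [sub_add_sub_cancel] at h3
        linarith
  have key : ∀ x ∈ J, ∀ y, x ≤ y → ‖w y - w x‖ ≤ (1 + 2 / δ) * (1 + |y - x|) := by
    intro x hx y hxy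
    obtain ⟨N, hN1, hN2⟩ : ∃ N : ℕ, (y - x) / (δ / 2) ≤ N ∧ (N : ℝ) < (y - x) / (δ / 2) + 1 :=
      ⟨⌈(y - x) / (δ / 2)⌉₊, Nat.le_ceil _, Nat.ceil_lt_add_one (by
        have : 0 ≤ y - x := by linarith
        positivity)⟩
    have h1 := hN N x hx y hxy (by
      rw [div_le_iff₀ (by linarith)] at hN1
      linarith)
    refine h1.trans (hN2.le.trans ?_)
    rw [abs_of_nonneg (by linarith)]
    have h2 : (y - x) / (δ / 2) = 2 / δ * (y - x) := by field_simp
    rw [h2]
    have h3 : 0 ≤ 2 / δ := by positivity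
    nlinarith
  refine ⟨1 + 2 / δ, by positivity, fun x hx y hy => ?_⟩
  rcases le_total x y with hxy | hxy
  · rw [norm_sub_rev, abs_sub_comm]
    exact key x hx y hxy
  · exact key y hy x hxy

lemma bigO_shift (hJ : Admissible J) {w : ℝ → X} (hw : UniformContinuousOn w J) {τ : ℝ → ℝ}
    (h1 : ∀ᶠ t in FJ J, τ t ∈ J) {D : ℝ} (h2 : ∀ᶠ t in FJ J, |τ t - t| ≤ D) :
    (fun t => w (τ t) - w t) =O[FJ J] (fun _ => (1 : ℝ)) := by
  obtain ⟨C, hC, h⟩ := uc_growth hJ hw
  refine IsBigO.of_bound (C * (1 + D)) ?_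
  filter_upwards [h1, h2, ev_mem] with t ht1 ht2 ht3
  rw [norm_one, mul_one]
  refine (h _ ht1 _ ht3).trans ?_
  gcongr

lemma bigO_lin (hJ : Admissible J) {w : ℝ → X} (hw : UniformContinuousOn w J) :
    w =O[FJ J] (fun t => t) := by
  obtain ⟨C, hC, h⟩ := uc_growth hJ hw
  rcases J.eq_empty_or_nonempty with hJe | ⟨x0, hx0⟩
  · refine IsBigO.of_bound 0 (ev_FJ.2 ⟨0, fun t ht => ?_⟩)
    rw [hJe] at ht
    exact ht.elim
  · refine IsBigO.of_bound (C * (2 + |x0|) + ‖w x0‖) ?_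
    filter_upwards [ev_one, ev_mem] with t ht1 ht2
    have h3 := h t ht2 x0 hx0
    have h4 : ‖w t‖ ≤ ‖w t - w x0‖ + ‖w x0‖ := by
      have := norm_add_le (w t - w x0) (w x0)
      rwa [sub_add_cancel] at this
    have h5 : |t - x0| ≤ |t| + |x0| := abs_sub _ _
    rw [Real.norm_eq_abs]
    have h6 : C * (1 + |t - x0|) ≤ C * ((2 + |x0|) * |t|) := by
      gcongr
      nlinarith [abs_nonneg x0]
    nlinarith [norm_nonneg (w x0)]

lemma sg_mem_bd : ∀ᶠ t in FJ J, |sg Real.pi t - t| ≤ Real.pi := by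
  filter_upwards [ev_one] with t ht
  refine (sg_sub Real.pi_pos.le ht).trans ?_
  exact div_le_self Real.pi_pos.le ht

/-- the `v`-part of every difference is bounded -/
lemma vbdd (hJ : Admissible J) {f : ℝ → X} {U V : ℝ → ℝ → X}
    (hU : ∀ a, 0 < a → UniformContinuousOn (U a) J)
    (hV : ∀ a, 0 < a → UniformContinuousOn (V a) J)
    (hf : ∀ a, 0 < a → ∀ t ∈ J, f (t + a) - f t = U a t + g t • V a t)
    {b : ℝ} (hb : 0 < b) : V b =O[FJ J] (fun _ => (1 : ℝ)) := by
  obtain ⟨a, ha⟩ : ∃ a : ℝ, a = Real.pi / 2 := ⟨_, rfl⟩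
  have hpi := Real.pi_pos
  have ha0 : 0 < a := by rw [ha]; positivity
  have hab : 0 < a + b := by linarith
  obtain ⟨P, hP⟩ : ∃ P : ℝ → X, P = fun t => U (a + b) t - U a t - U b (t + a) := ⟨_, rfl⟩
  obtain ⟨w, hw⟩ : ∃ w : ℝ → X, w = fun t => V (a + b) t - V a t := ⟨_, rfl⟩
  obtain ⟨z, hz⟩ : ∃ z : ℝ → X, z = fun t => V b (t + a) := ⟨_, rfl⟩
  have uP : UniformContinuousOn P J := by
    rw [hP]
    exact ucsub (ucsub (hU _ hab) (hU _ ha0)) (uc_comp_add hJ (hU _ hb) ha0)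
  have uw : UniformContinuousOn w J := by
    rw [hw]
    exact ucsub (hV _ hab) (hV _ ha0)
  have uz : UniformContinuousOn z J := by
    rw [hz]
    exact uc_comp_add hJ (hV _ hb) ha0
  have hrel : ∀ t ∈ J, P t + g t • (w t - e a t • z t) = 0 := by
    intro t ht
    have e1 := hf a ha0 t ht
    have e2 := hf b hb (t + a) (adm_up hJ ht (by linarith))
    have e3 := hf (a + b) hab t ht
    rw [g_add] at e2
    have e5 : f (t + (a + b)) - f t = (f (t + a) - f t) + (f (t + a + b) - f (t + a)) := by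
      rw [← add_assoc]; abel
    rw [e1, e2, e3] at e5
    rw [← sub_eq_zero] at e5
    rw [← e5, hP, hw, hz]
    module
  obtain ⟨σ, hσ⟩ : ∃ σ : ℝ → ℝ, σ = sg Real.pi := ⟨_, rfl⟩
  have m1 : ∀ᶠ t in FJ J, σ t ∈ J := by rw [hσ]; exact sg_mem hJ hpi.le
  have m2 : ∀ᶠ t in FJ J, |σ t - t| ≤ Real.pi := by rw [hσ]; exact sg_mem_bd
  have hgσ : ∀ t, g (σ t) = - g t := by
    intro t
    unfold g
    have : ((σ t : ℝ) : ℂ) ^ 2 = (t : ℂ) ^ 2 + Real.pi := by
      have := sg_sq hpi.le t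
      rw [← hσ] at this
      exact_mod_cast this
    rw [this, mul_add, Complex.exp_add, mul_comm Complex.I (Real.pi : ℂ), Complex.exp_pi_mul_I]
    ring
  have oP := bigO_shift hJ uP m1 m2
  have ow := bigO_shift hJ uw m1 m2
  have oz := bigO_shift hJ uz m1 m2
  have oe : (fun t => e a (σ t) - e a t) =O[FJ J] (fun t => t⁻¹) := by
    refine IsBigO.of_bound (2 * a * Real.pi) ?_
    filter_upwards [ev_one] with t ht
    unfold e
    refine (exp_lip _ _).trans ?_
    have h1 : 2 * a * σ t + a ^ 2 - (2 * a * t + a ^ 2) = 2 * a * (σ t - t) := by ring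
    rw [h1, abs_mul, abs_of_pos (by positivity), norm_inv, Real.norm_eq_abs]
    have := sg_sub hpi.le ht
    rw [← hσ] at this
    calc 2 * a * |σ t - t| ≤ 2 * a * (Real.pi / |t|) := by gcongr
      _ = 2 * a * Real.pi * |t|⁻¹ := by rw [div_eq_mul_inv]; ring
  have oez : (fun t => (e a (σ t) - e a t) • z t) =O[FJ J] (fun _ => (1 : ℝ)) := by
    refine (oe.smul (bigO_lin hJ uz)).trans (IsBigO.of_bound 1 ?_)
    filter_upwards [ev_one] with t ht
    have ht0 : t ≠ 0 := by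
      intro h
      rw [h] at ht
      norm_num at ht
    rw [smul_eq_mul, inv_mul_cancel₀ ht0]
    simp
  have oez2 : (fun t => e a (σ t) • (z (σ t) - z t)) =O[FJ J] (fun _ => (1 : ℝ)) := by
    refine IsBigO.trans (IsBigO.of_bound' (Eventually.of_forall fun t => ?_)) oz
    rw [norm_smul, norm_e, one_mul]
  have hPb : P =O[FJ J] (fun _ => (1 : ℝ)) := by
    have h1 : (fun t => (2 : ℂ)⁻¹ • ((g t • ((w (σ t) - w t)
        - ((e a (σ t) - e a t) • z t + e a (σ t) • (z (σ t) - z t))))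
        - (P (σ t) - P t))) =O[FJ J] (fun _ => (1 : ℝ)) := by
      refine IsBigO.const_smul_left ?_ _
      refine IsBigO.sub ?_ oP
      refine IsBigO.trans (IsBigO.of_bound' (Eventually.of_forall fun t => ?_))
        (ow.sub (oez.add oez2))
      rw [norm_smul, norm_g, one_mul]
    refine h1.congr' ?_ (EventuallyEq.refl _ _)
    filter_upwards [m1, ev_mem] with t ht1 ht2
    have k1 := hrel t ht2
    have k2 := hrel _ ht1
    rw [hgσ] at k2
    have k3 : P t = (2 : ℂ)⁻¹ • ((P t + g t • (w t - e a t • z t))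
        + (P (σ t) + (-g t) • (w (σ t) - e a (σ t) • z (σ t))))
        + (2 : ℂ)⁻¹ • ((g t • ((w (σ t) - w t)
        - ((e a (σ t) - e a t) • z t + e a (σ t) • (z (σ t) - z t))))
        - (P (σ t) - P t)) := by
      module
    rw [k1, k2, add_zero, smul_zero, zero_add] at k3
    exact k3.symm
  have hQb : (fun t => w t - e a t • z t) =O[FJ J] (fun _ => (1 : ℝ)) := by
    refine IsBigO.trans (IsBigO.of_bound 1 ?_) hPb
    filter_upwards [ev_mem] with t ht
    have k1 := hrel t ht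
    rw [add_eq_zero_iff_eq_neg] at k1
    rw [k1, norm_neg, norm_smul, norm_g]
    simp
  -- shift by one
  have t1 : Tendsto (fun t : ℝ => t + 1) (FJ J) (FJ J) := by
    simpa using tendsto_sub_FJ hJ (-1)
  have n1 : ∀ᶠ t in FJ J, t + 1 ∈ J := by
    filter_upwards [ev_mem] with t ht
    exact adm_up hJ ht (by linarith)
  have n2 : ∀ᶠ t in FJ J, |t + 1 - t| ≤ 1 := Eventually.of_forall fun t => by simp
  have ow1 := bigO_shift hJ uw n1 n2
  have oz1 := bigO_shift hJ uz n1 n2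
  have hQ1 : (fun t => w (t + 1) - e a (t + 1) • z (t + 1)) =O[FJ J] (fun _ => (1 : ℝ)) :=
    hQb.comp_tendsto t1
  have he1 : ∀ t, e a (t + 1) = - e a t := by
    intro t
    unfold e
    have : (((2 * a * (t + 1) + a ^ 2 : ℝ) : ℂ) * Complex.I)
        = (((2 * a * t + a ^ 2 : ℝ) : ℂ) * Complex.I) + Real.pi * Complex.I := by
      rw [ha]
      push_cast
      ring
    rw [this, Complex.exp_add, Complex.exp_pi_mul_I]
    ring
  have hz0 : z =O[FJ J] (fun _ => (1 : ℝ)) := by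
    have h1 : (fun t => e a t • z t) =O[FJ J] (fun _ => (1 : ℝ)) := by
      have h2 : (fun t => (2 : ℂ)⁻¹ • (((w (t + 1) - e a (t + 1) • z (t + 1))
          - (w t - e a t • z t) - (w (t + 1) - w t)) - e a t • (z (t + 1) - z t)))
          =O[FJ J] (fun _ => (1 : ℝ)) := by
        refine IsBigO.const_smul_left ?_ _
        refine IsBigO.sub ((hQ1.sub hQb).sub ow1) ?_
        refine IsBigO.trans (IsBigO.of_bound' (Eventually.of_forall fun t => ?_)) oz1
        rw [norm_smul, norm_e, one_mul]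
      refine h2.congr' (Eventually.of_forall fun t => ?_) (EventuallyEq.refl _ _)
      simp only [he1]
      module
    refine IsBigO.trans (IsBigO.of_bound 1 (Eventually.of_forall fun t => ?_)) h1
    rw [norm_smul, norm_e, one_mul, one_mul]
  have hfin := hz0.comp_tendsto (tendsto_sub_FJ hJ a)
  refine hfin.congr (fun t => ?_) (fun _ => rfl)
  rw [hz]
  simp

/-! ### locally uniformly continuous functions -/

/-- uniformly continuous and bounded on bounded parts of `J` -/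
def LUC {E : Type*} [NormedAddCommGroup E] (J : Set ℝ) (w : ℝ → E) : Prop :=
  ∀ T : ℝ, UniformContinuousOn w (J ∩ Icc (-T) T) ∧ ∃ C, ∀ t ∈ J ∩ Icc (-T) T, ‖w t‖ ≤ C

lemma luc_of_uc (hJ : Admissible J) {w : ℝ → X} (hw : UniformContinuousOn w J) : LUC J w := by
  intro T
  refine ⟨hw.mono inter_subset_left, ?_⟩
  obtain ⟨C, hC, h⟩ := uc_growth hJ hw
  rcases (J ∩ Icc (-T) T).eq_empty_or_nonempty with he | ⟨x0, hx0⟩
  · refine ⟨0, fun t ht => ?_⟩
    rw [he] at ht
    exact ht.elim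
  · refine ⟨C * (1 + |2 * T|) + ‖w x0‖, fun t ht => ?_⟩
    have h3 := h t ht.1 x0 hx0.1
    have h4 : ‖w t‖ ≤ ‖w t - w x0‖ + ‖w x0‖ := by
      have := norm_add_le (w t - w x0) (w x0)
      rwa [sub_add_cancel] at this
    have h5 : |t - x0| ≤ |2 * T| := by
      refine le_trans ?_ (le_abs_self _)
      rw [abs_le]
      constructor <;> linarith [ht.2.1, ht.2.2, hx0.2.1, hx0.2.2]
    have h6 : C * (1 + |t - x0|) ≤ C * (1 + |2 * T|) := by gcongr
    linarith

lemma luc_sub {u v : ℝ → X} (hu : LUC J u) (hv : LUC J v) : LUC J (fun t => u t - v t) := by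
  intro T
  obtain ⟨u1, C1, h1⟩ := hu T
  obtain ⟨u2, C2, h2⟩ := hv T
  exact ⟨ucsub u1 u2, C1 + C2, fun t ht => (norm_sub_le _ _).trans (add_le_add (h1 t ht) (h2 t ht))⟩

lemma luc_add {u v : ℝ → X} (hu : LUC J u) (hv : LUC J v) : LUC J (fun t => u t + v t) := by
  intro T
  obtain ⟨u1, C1, h1⟩ := hu T
  obtain ⟨u2, C2, h2⟩ := hv T
  exact ⟨ucadd u1 u2, C1 + C2, fun t ht => (norm_add_le _ _).trans (add_le_add (h1 t ht) (h2 t ht))⟩

lemma uc_smul_on {S : Set ℝ} {c : ℝ → ℂ} {w : ℝ → X} {C1 C2 : ℝ} (hc : UniformContinuousOn c S)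
    (hC1 : ∀ t ∈ S, ‖c t‖ ≤ C1) (hw : UniformContinuousOn w S) (hC2 : ∀ t ∈ S, ‖w t‖ ≤ C2) :
    UniformContinuousOn (fun t => c t • w t) S := by
  rw [Metric.uniformContinuousOn_iff] at *
  intro ε hε
  have k1 : (0 : ℝ) < |C1| + 1 := by positivity
  have k2 : (0 : ℝ) < |C2| + 1 := by positivity
  obtain ⟨δ1, hδ1, h1⟩ := hc (ε / 2 / (|C2| + 1)) (by positivity)
  obtain ⟨δ2, hδ2, h2⟩ := hw (ε / 2 / (|C1| + 1)) (by positivity)
  refine ⟨min δ1 δ2, lt_min hδ1 hδ2, fun x hx y hy hxy => ?_⟩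
  have m1 := h1 x hx y hy (lt_of_lt_of_le hxy (min_le_left _ _))
  have m2 := h2 x hx y hy (lt_of_lt_of_le hxy (min_le_right _ _))
  rw [dist_eq_norm] at *
  have e1 : c x • w x - c y • w y = (c x - c y) • w x + c y • (w x - w y) := by module
  rw [e1]
  refine (norm_add_le _ _).trans_lt ?_
  rw [norm_smul, norm_smul]
  have k3 : ‖w x‖ ≤ |C2| + 1 := (hC2 x hx).trans ((le_abs_self _).trans (by linarith))
  have k4 : ‖c y‖ ≤ |C1| + 1 := (hC1 y hy).trans ((le_abs_self _).trans (by linarith))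
  have k5 : ‖c x - c y‖ * ‖w x‖ ≤ ‖c x - c y‖ * (|C2| + 1) := by gcongr
  have k6 : ‖c x - c y‖ * (|C2| + 1) < ε / 2 := (lt_div_iff₀ k2).1 m1
  have k7 : ‖c y‖ * ‖w x - w y‖ ≤ (|C1| + 1) * ‖w x - w y‖ := by gcongr
  have k8 : ‖w x - w y‖ * (|C1| + 1) < ε / 2 := (lt_div_iff₀ k1).1 m2
  linarith

lemma luc_smul {c : ℝ → ℂ} {w : ℝ → X} (hc : LUC J c) (hw : LUC J w) :
    LUC J (fun t => c t • w t) := by
  intro T
  obtain ⟨u1, C1, h1⟩ := hc T
  obtain ⟨u2, C2, h2⟩ := hw T
  refine ⟨uc_smul_on u1 h1 u2 h2, |C1| * C2, fun t ht => ?_⟩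
  rw [norm_smul]
  exact mul_le_mul ((h1 t ht).trans (le_abs_self _)) (h2 t ht) (norm_nonneg _) (abs_nonneg _)

lemma luc_cont {c : ℝ → ℂ} (hc : Continuous c) : LUC J c := by
  intro T
  have h1 := isCompact_Icc.uniformContinuousOn_of_continuous (hc.continuousOn (s := Icc (-T) T))
  obtain ⟨C, hC⟩ := isCompact_Icc.exists_bound_of_continuousOn (hc.continuousOn (s := Icc (-T) T))
  exact ⟨h1.mono inter_subset_right, C, fun t ht => hC t ht.2⟩

/-- the inverse of `g` -/
noncomputable def gi (t : ℝ) : ℂ := Complex.exp (-(Complex.I * (t : ℂ) ^ 2))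

lemma g_gi (t : ℝ) : g t * gi t = 1 := by
  unfold g gi
  rw [← Complex.exp_add, add_neg_cancel, Complex.exp_zero]

lemma gi_g (t : ℝ) : gi t * g t = 1 := by
  rw [mul_comm]; exact g_gi t

lemma norm_gi (t : ℝ) : ‖gi t‖ = 1 := by
  have h := congrArg norm (g_gi t)
  rwa [norm_mul, norm_g, one_mul, norm_one] at h

lemma cont_g : Continuous g := by
  unfold g
  fun_prop

lemma cont_gi : Continuous gi := by
  unfold gi
  fun_prop

/-- the shift `t ↦ t + π/(2 max(1,|t|))` -/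
noncomputable def sh (t : ℝ) : ℝ := t + Real.pi / 2 / max 1 |t|

lemma sh_ge (t : ℝ) : t ≤ sh t := by
  unfold sh
  have : 0 ≤ Real.pi / 2 / max 1 |t| := by positivity
  linarith

lemma sh_le (t : ℝ) : sh t - t < 2 := by
  unfold sh
  have h1 : Real.pi / 2 / max 1 |t| ≤ Real.pi / 2 := div_le_self (by positivity) (le_max_left _ _)
  have := Real.pi_lt_four
  linarith

lemma sh_mem (hJ : Admissible J) {t : ℝ} (ht : t ∈ J) : sh t ∈ J := adm_up hJ ht (sh_ge t)

lemma sh_lip (x y : ℝ) : |sh x - sh y| ≤ 3 * |x - y| := by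
  unfold sh
  have h2 : abs (max 1 (abs y) - max 1 (abs x)) ≤ |x - y| := by
    have h3 := abs_max_sub_max_le_max (1 : ℝ) (abs y) 1 (abs x)
    rw [sub_self, abs_zero] at h3
    have h4 := abs_abs_sub_abs_le_abs_sub y x
    rw [abs_sub_comm y x] at h4
    exact h3.trans (max_le (abs_nonneg _) h4)
  obtain ⟨A, hA⟩ : ∃ A : ℝ, A = max 1 |x| := ⟨_, rfl⟩
  obtain ⟨B, hB⟩ : ∃ B : ℝ, B = max 1 |y| := ⟨_, rfl⟩
  have hx : 1 ≤ A := by rw [hA]; exact le_max_left _ _
  have hy : 1 ≤ B := by rw [hB]; exact le_max_left _ _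
  rw [← hA, ← hB] at h2 ⊢
  have h1 : x + Real.pi / 2 / A - (y + Real.pi / 2 / B)
      = (x - y) + Real.pi / 2 * ((B - A) / (A * B)) := by
    field_simp
    ring
  rw [h1]
  refine (abs_add_le _ _).trans ?_
  rw [abs_mul, abs_of_pos (by positivity : (0 : ℝ) < Real.pi / 2), abs_div,
    abs_of_pos (by positivity : (0 : ℝ) < A * B)]
  have h3 : |B - A| / (A * B) ≤ |x - y| := by
    refine (div_le_self (abs_nonneg _) ?_).trans h2
    nlinarith
  have h4 : Real.pi / 2 * (|B - A| / (A * B)) ≤ 2 * |x - y| := by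
    have := Real.pi_lt_four
    gcongr
    linarith
  linarith

lemma sh_tendsto : Tendsto (fun t => sh t - t) (FJ J) (𝓝 0) := by
  have h1 : Tendsto (fun t : ℝ => Real.pi / 2 / |t|) (FJ J) (𝓝 0) :=
    abs_atTop.const_div_atTop _
  refine squeeze_zero_norm' ?_ h1
  filter_upwards [ev_one] with t ht
  unfold sh
  rw [max_eq_right ht, add_sub_cancel_left, Real.norm_eq_abs, abs_of_nonneg (by positivity)]

lemma kappa {t : ℝ} (ht : 1 ≤ |t|) : ‖gi t * g (sh t) + 1‖ ≤ Real.pi ^ 2 / 4 / |t| := by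
  have ht0 : t ≠ 0 := by
    intro h
    rw [h] at ht
    norm_num at ht
  have hsh : sh t = t + Real.pi / 2 / |t| := by
    unfold sh
    rw [max_eq_right ht]
  have e2 : sh t ^ 2 - t ^ 2 = Real.pi * (t / |t|) + Real.pi ^ 2 / 4 / t ^ 2 := by
    rw [hsh, show Real.pi ^ 2 / 4 / t ^ 2 = Real.pi ^ 2 / 4 / |t| ^ 2 by rw [sq_abs]]
    have : |t| ≠ 0 := abs_ne_zero.2 ht0
    field_simp
    ring
  have e3 : gi t * g (sh t) = Complex.exp (((sh t ^ 2 - t ^ 2 : ℝ) : ℂ) * Complex.I) := by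
    unfold g gi
    rw [← Complex.exp_add]
    congr 1
    push_cast
    ring
  have e4 : Complex.exp (((Real.pi * (t / |t|) : ℝ) : ℂ) * Complex.I) = -1 := by
    rcases lt_or_gt_of_ne ht0 with h | h
    · rw [abs_of_neg h, div_neg, div_self ht0]
      rw [show (((Real.pi * -1 : ℝ) : ℂ) * Complex.I) = -(Real.pi * Complex.I) by push_cast; ring,
        Complex.exp_neg, Complex.exp_pi_mul_I]
      norm_num
    · rw [abs_of_pos h, div_self ht0, mul_one]
      exact Complex.exp_pi_mul_I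
  have e5 : gi t * g (sh t) + 1 = -(Complex.exp (((Real.pi ^ 2 / 4 / t ^ 2 : ℝ) : ℂ) * Complex.I)
      - Complex.exp (((0 : ℝ) : ℂ) * Complex.I)) := by
    rw [e3, e2]
    push_cast
    rw [add_mul, Complex.exp_add]
    have e6 := e4
    push_cast at e6
    rw [e6]
    simp only [neg_mul, one_mul, zero_mul, Complex.exp_zero]
    ring
  rw [e5, norm_neg]
  refine (exp_lip _ _).trans ?_
  rw [sub_zero, abs_of_nonneg (by positivity)]
  have h2 : t ^ 2 = |t| ^ 2 := (sq_abs t).symm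
  rw [h2]
  gcongr
  nlinarith

lemma kappa_tendsto : Tendsto (fun t => gi t * g (sh t) + 1) (FJ J) (𝓝 0) := by
  have h1 : Tendsto (fun t : ℝ => Real.pi ^ 2 / 4 / |t|) (FJ J) (𝓝 0) :=
    abs_atTop.const_div_atTop _
  refine squeeze_zero_norm' ?_ h1
  filter_upwards [ev_one] with t ht
  exact kappa ht

lemma luc_sh (hJ : Admissible J) {w : ℝ → X} (hw : LUC J w) : LUC J (fun t => w (sh t)) := by
  intro T
  obtain ⟨h1, C, hC⟩ := hw (T + 2)
  have hm : ∀ t ∈ J ∩ Icc (-T) T, sh t ∈ J ∩ Icc (-(T + 2)) (T + 2) := by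
    intro t ht
    refine ⟨sh_mem hJ ht.1, ?_, ?_⟩
    · have := sh_ge t
      linarith [ht.2.1]
    · have := sh_le t
      linarith [ht.2.2]
  refine ⟨?_, C, fun t ht => hC _ (hm t ht)⟩
  rw [Metric.uniformContinuousOn_iff] at *
  intro ε hε
  obtain ⟨δ, hδ, h⟩ := h1 ε hε
  refine ⟨δ / 3, by positivity, fun x hx y hy hxy => ?_⟩
  refine h _ (hm x hx) _ (hm y hy) ?_
  rw [Real.dist_eq] at *
  have := sh_lip x y
  linarith

lemma uc_of_luc {E : ℝ → X} (hE : LUC J E) (h0 : Tendsto E (FJ J) (𝓝 0)) :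
    UniformContinuousOn E J := by
  rw [Metric.uniformContinuousOn_iff]
  intro ε hε
  obtain ⟨T, hT⟩ := ev_FJ.1 (Metric.tendsto_nhds.1 h0 (ε / 2) (by positivity))
  obtain ⟨h1, -⟩ := hE (|T| + 1)
  obtain ⟨δ, hδ, h⟩ := Metric.uniformContinuousOn_iff.1 h1 ε hε
  refine ⟨min 1 δ, lt_min one_pos hδ, fun x hx y hy hxy => ?_⟩
  have k1 : dist x y < 1 := lt_of_lt_of_le hxy (min_le_left _ _)
  have k2 : dist x y < δ := lt_of_lt_of_le hxy (min_le_right _ _)
  by_cases hcase : |x| ≤ |T| + 1 ∧ |y| ≤ |T| + 1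
  · exact h x ⟨hx, abs_le.1 hcase.1⟩ y ⟨hy, abs_le.1 hcase.2⟩ k2
  · have hxT : T ≤ |x| ∧ T ≤ |y| := by
      have e1 : |x| - |y| ≤ |x - y| := abs_sub_abs_le_abs_sub x y
      have e2 : |y| - |x| ≤ |y - x| := abs_sub_abs_le_abs_sub y x
      rw [abs_sub_comm y x] at e2
      rw [Real.dist_eq] at k1
      have e3 := le_abs_self T
      rw [not_and_or, not_le, not_le] at hcase
      rcases hcase with hh | hh
      · constructor <;> linarith
      · constructor <;> linarith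
    have q1 := hT x hx hxT.1
    have q2 := hT y hy hxT.2
    have := dist_triangle_right (E x) (E y) 0
    linarith

/-- the canonical splitting -/
lemma split (hJ : Admissible J) {F u v : ℝ → X} (hu : UniformContinuousOn u J)
    (hv : UniformContinuousOn v J) (hvb : v =O[FJ J] (fun _ => (1 : ℝ)))
    (hF : ∀ t ∈ J, F t = u t + g t • v t) :
    UniformContinuousOn (fun t => (2 : ℂ)⁻¹ • (F t + F (sh t))) J ∧
    UniformContinuousOn (fun t => (2 : ℂ)⁻¹ • (gi t • (F t - F (sh t)))) J := by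
  have hs1 : ∀ᶠ t in FJ J, sh t ∈ J := by
    filter_upwards [ev_mem] with t ht
    exact sh_mem hJ ht
  have uc_shift : ∀ w : ℝ → X, UniformContinuousOn w J →
      Tendsto (fun t => w (sh t) - w t) (FJ J) (𝓝 0) := by
    intro w hw
    rw [Metric.tendsto_nhds]
    intro ε hε
    obtain ⟨δ, hδ, h⟩ := Metric.uniformContinuousOn_iff.1 hw ε hε
    filter_upwards [hs1, ev_mem, Metric.tendsto_nhds.1 sh_tendsto δ hδ] with t ht1 ht2 ht3
    have := h (sh t) ht1 t ht2 (by rw [dist_eq_norm]; simpa [dist_eq_norm] using ht3)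
    rwa [dist_zero_right, ← dist_eq_norm]
  obtain ⟨E, hE⟩ : ∃ E : ℝ → X, E = fun t => (2 : ℂ)⁻¹ • (gi t • (F t - F (sh t))) - v t :=
    ⟨_, rfl⟩
  have lF : LUC J F := by
    have h1 := luc_add (luc_of_uc hJ hu) (luc_smul (luc_cont cont_g) (luc_of_uc hJ hv))
    intro T
    obtain ⟨h2, C, hC⟩ := h1 T
    exact ⟨h2.congr fun t ht => (hF t ht.1).symm, C, fun t ht => by
      rw [hF t ht.1]; exact hC t ht⟩
  have lE : LUC J E := by
    rw [hE]
    exact luc_sub (luc_smul (luc_cont continuous_const) (luc_smul (luc_cont cont_gi)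
      (luc_sub lF (luc_sh hJ lF)))) (luc_of_uc hJ hv)
  have tE : Tendsto E (FJ J) (𝓝 0) := by
    have a1 := uc_shift u hu
    have a2 := uc_shift v hv
    have a3 : (fun t => v (sh t)) =O[FJ J] (fun _ => (1 : ℝ)) := by
      have := (a2.isBigO_one ℝ).add hvb
      refine this.congr_left fun t => ?_
      abel
    have a4 : Tendsto (fun t => (gi t * g (sh t) + 1) • v (sh t)) (FJ J) (𝓝 0) := by
      have h1 : (fun t => gi t * g (sh t) + 1) =o[FJ J] (fun _ => (1 : ℝ)) :=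
        (isLittleO_one_iff ℝ).2 kappa_tendsto
      have h2 := h1.smul_isBigO a3
      simp only [smul_eq_mul, mul_one] at h2
      exact (isLittleO_one_iff ℝ).1 h2
    have a5 : Tendsto (fun t => gi t • (u (sh t) - u t)) (FJ J) (𝓝 0) := by
      refine squeeze_zero_norm (fun t => ?_) (tendsto_zero_iff_norm_tendsto_zero.1 a1)
      rw [norm_smul, norm_gi, one_mul]
    have a6 : Tendsto (fun t => (2 : ℂ)⁻¹ • ((v (sh t) - v t) - gi t • (u (sh t) - u t)
        - (gi t * g (sh t) + 1) • v (sh t))) (FJ J) (𝓝 0) := by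
      simpa using ((a2.sub a5).sub a4).const_smul (2 : ℂ)⁻¹
    refine a6.congr' ?_
    filter_upwards [ev_mem] with t ht
    have hEt : E t = (2 : ℂ)⁻¹ • (gi t • (F t - F (sh t))) - v t := by rw [hE]
    rw [hEt, hF t ht, hF _ (sh_mem hJ ht)]
    have e1 : gi t • (u t + g t • v t - (u (sh t) + g (sh t) • v (sh t)))
        = gi t • (u t - u (sh t)) + (gi t * g t) • v t - (gi t * g (sh t)) • v (sh t) := by
      module
    rw [e1, gi_g]
    module
  have uE := uc_of_luc lE tE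
  have ugE : UniformContinuousOn (fun t => g t • E t) J := by
    refine uc_of_luc (luc_smul (luc_cont cont_g) lE) ?_
    refine squeeze_zero_norm (fun t => ?_) (tendsto_zero_iff_norm_tendsto_zero.1 tE)
    rw [norm_smul, norm_g, one_mul]
  constructor
  · refine (ucsub hu ugE).congr fun t ht => ?_
    have hEt : E t = (2 : ℂ)⁻¹ • (gi t • (F t - F (sh t))) - v t := by rw [hE]
    beta_reduce
    rw [hEt, hF t ht, hF _ (sh_mem hJ ht)]
    have e1 : g t • ((2 : ℂ)⁻¹ • (gi t • (u t + g t • v t - (u (sh t) + g (sh t) • v (sh t))))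
        - v t) = (2 : ℂ)⁻¹ • ((g t * gi t) • (u t + g t • v t
          - (u (sh t) + g (sh t) • v (sh t)))) - g t • v t := by
      module
    rw [e1, g_gi]
    module
  · refine (ucadd hv uE).congr fun t ht => ?_
    have hEt : E t = (2 : ℂ)⁻¹ • (gi t • (F t - F (sh t))) - v t := by rw [hE]
    beta_reduce
    rw [hEt]
    abel

/-! ### Steinhaus -/

lemma steinhaus {Bd : ℝ → ℝ → Prop} (mono : ∀ s K K', Bd s K → K ≤ K' → Bd s K')
    (fin : ∀ s, 0 < s → ∃ K, Bd s K)
    (add : ∀ a b K K', 0 < a → 0 < b → Bd a K → Bd b K' → Bd (a + b) (K + K'))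
    (sub : ∀ r s s' K K2, 0 < r → 1 < s' → s' < 2 → s = s' + r → Bd s K → Bd s' K → Bd 2 K2 →
      Bd r (2 * K2 + 2 * K))
    (meas : ∀ n : ℕ, NullMeasurableSet {s | Bd s n} (volume.restrict (Ioo (1 : ℝ) 2))) (h : ℝ) :
    ∃ K, ∀ s, 0 < s → s ≤ h → Bd s K := by
  obtain ⟨μ, hμ⟩ : ∃ μ : Measure ℝ, μ = volume.restrict (Ioo (1 : ℝ) 2) := ⟨_, rfl⟩
  obtain ⟨G, hG⟩ : ∃ G : ℕ → Set ℝ, G = fun n : ℕ => {s : ℝ | Bd s n} := ⟨_, rfl⟩
  have hGm : ∀ n, NullMeasurableSet (G n) μ := by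
    intro n
    rw [hμ, hG]
    exact meas n
  have hmem : ∀ n s, s ∈ G n ↔ Bd s n := by
    intro n s
    rw [hG]
    exact Iff.rfl
  have hGu : Ioo (1 : ℝ) 2 ⊆ ⋃ n, G n := by
    intro s hs
    obtain ⟨C, hC⟩ := fin s (by linarith [hs.1])
    obtain ⟨n, hn⟩ := exists_nat_ge C
    exact mem_iUnion.2 ⟨n, (hmem n s).2 (mono _ _ _ hC hn)⟩
  have hpos : ∃ n, 0 < μ (G n) := by
    by_contra hcon
    push Not at hcon
    have h1 : μ (⋃ n, G n) = 0 := measure_iUnion_null fun n => le_antisymm (hcon n) zero_le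
    have h2 : μ (Ioo (1 : ℝ) 2) = 0 := measure_mono_null hGu h1
    rw [hμ, Measure.restrict_apply_self, Real.volume_Ioo] at h2
    norm_num at h2
  obtain ⟨n, hn⟩ := hpos
  obtain ⟨E, hEG, hEm, hEae⟩ := (hGm n).exists_measurable_subset_ae_eq
  have hE1 : 0 < volume (E ∩ Ioo (1 : ℝ) 2) := by
    rw [← measure_congr hEae, hμ, Measure.restrict_apply hEm] at hn
    exact hn
  have hnh := Measure.sub_mem_nhds_zero_of_addHaar_pos volume (E ∩ Ioo (1 : ℝ) 2)
    (hEm.inter measurableSet_Ioo) hE1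
  obtain ⟨δ, hδ, hball⟩ := Metric.mem_nhds_iff.1 hnh
  obtain ⟨C2, hC2⟩ := fin 2 (by norm_num)
  obtain ⟨K, hK⟩ : ∃ K : ℝ, K = 2 * |C2| + 2 * n := ⟨_, rfl⟩
  have hK0 : 0 ≤ K := by rw [hK]; positivity
  have hsmall : ∀ r : ℝ, 0 < r → r < δ → Bd r K := by
    intro r hr0 hrδ
    have hr : r ∈ E ∩ Ioo (1 : ℝ) 2 - E ∩ Ioo (1 : ℝ) 2 := hball (by
      rw [Metric.mem_ball, dist_zero_right, Real.norm_eq_abs, abs_of_pos hr0]
      exact hrδ)
    obtain ⟨s, hs, s', hs', hss⟩ := Set.mem_sub.1 hr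
    rw [hK]
    exact sub r s s' n |C2| hr0 hs'.2.1 hs'.2.2 (by linarith) ((hmem _ _).1 (hEG hs.1))
      ((hmem _ _).1 (hEG hs'.1)) (mono _ _ _ hC2 (le_abs_self _))
  have hN : ∀ N : ℕ, ∀ r : ℝ, 0 < r → r ≤ (N + 1) * (δ / 2) → Bd r ((N + 1) * K) := by
    intro N
    induction N with
    | zero =>
      intro r hr hr2
      have := hsmall r hr (by push_cast at hr2; linarith)
      refine mono _ _ _ this ?_
      push_cast
      linarith
    | succ N ih =>
      intro r hr hr2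
      push_cast at hr2 ⊢
      by_cases hcase : r ≤ (N + 1) * (δ / 2)
      · exact mono _ _ _ (ih r hr hcase) (by linarith)
      · push Not at hcase
        have hN0 : (0 : ℝ) ≤ N := Nat.cast_nonneg N
        have hr3 : 0 < r - δ / 2 := by nlinarith
        have h1 := ih (r - δ / 2) hr3 (by linarith)
        have h2 := hsmall (δ / 2) (by linarith) (by linarith)
        have h3 := add _ _ _ _ hr3 (by linarith) h1 h2
        rw [sub_add_cancel] at h3
        exact mono _ _ _ h3 (by linarith)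
  obtain ⟨N, hN1⟩ := exists_nat_ge (h / (δ / 2))
  refine ⟨(N + 1) * K, fun s hs hsh => hN N s hs ?_⟩
  rw [div_le_iff₀ (by linarith)] at hN1
  have : (N : ℝ) * (δ / 2) ≤ (N + 1) * (δ / 2) := by
    have : (0 : ℝ) < δ / 2 := by linarith
    nlinarith
  linarith

lemma l1_int (hJ : Admissible J) {f : ℝ → X} (hf : IsL1loc J f) {t : ℝ} (ht : t ∈ J) {a b : ℝ}
    (ha : 0 ≤ a) (hab : a ≤ b) : IntervalIntegrable (fun s => f (t + s)) volume a b := by
  have h1 : IntervalIntegrable f volume (t + a) (t + b) := by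
    rw [intervalIntegrable_iff_integrableOn_Icc_of_le (by linarith)]
    exact hf _ (adm_up hJ ht (by linarith)) _ (adm_up hJ ht (by linarith))
  have h2 := h1.comp_add_left t
  simpa using h2

/-- bounded oscillation of the differences over distances `< 2`, locally uniformly in `s` -/
lemma loc_bdd (hJ : Admissible J) {f : ℝ → X} (hf : IsL1loc J f)
    (hc : ∀ a : ℝ, 0 < a → ContinuousOn (fun t => f (t + a) - f t) J)
    (hd : ∀ a : ℝ, 0 < a → ∃ K : ℝ, ∀ x ∈ J, ∀ y ∈ J, |x - y| < 2 →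
      ‖(f (x + a) - f x) - (f (y + a) - f y)‖ ≤ K) (h : ℝ) :
    ∃ K : ℝ, ∀ s : ℝ, 0 < s → s ≤ h → ∀ x ∈ J, ∀ y ∈ J, |x - y| < 2 →
      ‖(f (x + s) - f x) - (f (y + s) - f y)‖ ≤ K := by
  refine steinhaus (Bd := fun s K => ∀ x ∈ J, ∀ y ∈ J, |x - y| < 2 →
      ‖(f (x + s) - f x) - (f (y + s) - f y)‖ ≤ K) ?_ hd ?_ ?_ ?_ h
  · intro s K K' h1 h2 x hx y hy hxy
    exact (h1 x hx y hy hxy).trans h2
  · intro a b K K' ha hb h1 h2 x hx y hy hxy
    have k1 := h1 (x + b) (adm_up hJ hx (by linarith)) (y + b) (adm_up hJ hy (by linarith))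
      (by rw [add_sub_add_right_eq_sub]; exact hxy)
    have k2 := h2 x hx y hy hxy
    have e1 : f (x + (a + b)) - f x - (f (y + (a + b)) - f y)
        = (f (x + b + a) - f (x + b) - (f (y + b + a) - f (y + b)))
          + (f (x + b) - f x - (f (y + b) - f y)) := by
      rw [show x + (a + b) = x + b + a by ring, show y + (a + b) = y + b + a by ring]
      abel
    rw [e1]
    exact (norm_add_le _ _).trans (add_le_add k1 k2)
  · intro r s s' K K2 hr hs1 hs2 hs h1 h2 h3 x hx y hy hxy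
    have k1 := h1 (x + 2 - s') (adm_up hJ hx (by linarith)) (y + 2 - s')
      (adm_up hJ hy (by linarith)) (by rw [sub_sub_sub_cancel_right, add_sub_add_right_eq_sub]; exact hxy)
    have k2 := h2 (x + 2 - s') (adm_up hJ hx (by linarith)) (y + 2 - s')
      (adm_up hJ hy (by linarith)) (by rw [sub_sub_sub_cancel_right, add_sub_add_right_eq_sub]; exact hxy)
    have k3 := h3 x hx y hy hxy
    have k4 := h3 (x + r) (adm_up hJ hx (by linarith)) (y + r) (adm_up hJ hy (by linarith))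
      (by rw [add_sub_add_right_eq_sub]; exact hxy)
    rw [show x + 2 - s' + s = x + r + 2 by linarith, show y + 2 - s' + s = y + r + 2 by linarith]
      at k1
    rw [show x + 2 - s' + s' = x + 2 by ring, show y + 2 - s' + s' = y + 2 by ring] at k2
    have e1 : f (x + r) - f x - (f (y + r) - f y)
        = -(f (x + r + 2) - f (x + r) - (f (y + r + 2) - f (y + r)))
          + ((f (x + r + 2) - f (x + 2 - s') - (f (y + r + 2) - f (y + 2 - s')))
            - (f (x + 2) - f (x + 2 - s') - (f (y + 2) - f (y + 2 - s'))))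
          + (f (x + 2) - f x - (f (y + 2) - f y)) := by
      abel
    rw [e1]
    have m1 := norm_add₃_le (a := -(f (x + r + 2) - f (x + r) - (f (y + r + 2) - f (y + r))))
      (b := ((f (x + r + 2) - f (x + 2 - s') - (f (y + r + 2) - f (y + 2 - s')))
            - (f (x + 2) - f (x + 2 - s') - (f (y + 2) - f (y + 2 - s')))))
      (c := (f (x + 2) - f x - (f (y + 2) - f y)))
    have m2 := norm_sub_le ((f (x + r + 2) - f (x + 2 - s') - (f (y + r + 2) - f (y + 2 - s'))))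
            (f (x + 2) - f (x + 2 - s') - (f (y + 2) - f (y + 2 - s')))
    rw [norm_neg] at m1
    linarith
  · intro n
    have hq : NullMeasurableSet {s : ℝ | ∀ q1 q2 : ℚ, (q1 : ℝ) ∈ J → (q2 : ℝ) ∈ J →
        |(q1 : ℝ) - q2| < 2 → ‖(f (q1 + s) - f q1) - (f (q2 + s) - f q2)‖ ≤ n}
        (volume.restrict (Ioo (1 : ℝ) 2)) := by
      have e1 : {s : ℝ | ∀ q1 q2 : ℚ, (q1 : ℝ) ∈ J → (q2 : ℝ) ∈ J →
        |(q1 : ℝ) - q2| < 2 → ‖(f (q1 + s) - f q1) - (f (q2 + s) - f q2)‖ ≤ n}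
        = ⋂ q1 : ℚ, ⋂ q2 : ℚ, {s : ℝ | (q1 : ℝ) ∈ J → (q2 : ℝ) ∈ J →
        |(q1 : ℝ) - q2| < 2 → ‖(f (q1 + s) - f q1) - (f (q2 + s) - f q2)‖ ≤ n} := by
        ext s
        simp only [mem_iInter]
        exact Iff.rfl
      rw [e1]
      refine NullMeasurableSet.iInter fun q1 => NullMeasurableSet.iInter fun q2 => ?_
      by_cases hq : (q1 : ℝ) ∈ J ∧ (q2 : ℝ) ∈ J ∧ |(q1 : ℝ) - q2| < 2
      · have e2 : {s : ℝ | (q1 : ℝ) ∈ J → (q2 : ℝ) ∈ J →
          |(q1 : ℝ) - q2| < 2 → ‖(f (q1 + s) - f q1) - (f (q2 + s) - f q2)‖ ≤ n}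
          = {s | ‖(f (q1 + s) - f q1) - (f (q2 + s) - f q2)‖ ≤ n} := by
          ext s
          simp [hq.1, hq.2.1, hq.2.2]
        rw [e2]
        have h2 : ∀ q : ℚ, (q : ℝ) ∈ J → AEStronglyMeasurable (fun s => f ((q : ℝ) + s))
            (volume.restrict (Ioo (1 : ℝ) 2)) := by
          intro q hqJ
          have h1 := (l1_int hJ hf hqJ (a := 1) (b := 2) (by norm_num) (by norm_num)).1
          exact h1.aestronglyMeasurable.mono_measure
            (Measure.restrict_mono Ioo_subset_Ioc_self le_rfl)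
        exact nullMeasurableSet_le (((h2 q1 hq.1).sub aestronglyMeasurable_const).sub
          ((h2 q2 hq.2.1).sub aestronglyMeasurable_const)).norm.aemeasurable
          aemeasurable_const
      · have e2 : {s : ℝ | (q1 : ℝ) ∈ J → (q2 : ℝ) ∈ J →
          |(q1 : ℝ) - q2| < 2 → ‖(f (q1 + s) - f q1) - (f (q2 + s) - f q2)‖ ≤ n} = univ := by
          ext s
          simp only [mem_univ, iff_true]
          intro a1 a2 a3
          exact absurd ⟨a1, a2, a3⟩ hq
        rw [e2]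
        exact nullMeasurableSet_univ
    refine hq.congr (eventuallyEq_set.2 ((ae_restrict_iff' measurableSet_Ioo).2
      (Eventually.of_forall fun s hs => ⟨fun h1 => ?_, fun h1 => ?_⟩)))
    · -- density
      intro x hx y hy hxy
      have hcs := hc s (by linarith [hs.1])
      refine le_of_forall_pos_le_add fun ε hε => ?_
      obtain ⟨δ1, hδ1, k1⟩ := Metric.continuousOn_iff.1 hcs x hx (ε / 2) (by positivity)
      obtain ⟨δ2, hδ2, k2⟩ := Metric.continuousOn_iff.1 hcs y hy (ε / 2) (by positivity)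
      have hgap : 0 < 2 - |x - y| := by linarith
      obtain ⟨η, hη⟩ : ∃ η : ℝ, η = min (min δ1 δ2) ((2 - |x - y|) / 2) := ⟨_, rfl⟩
      have hη0 : 0 < η := by
        rw [hη]
        exact lt_min (lt_min hδ1 hδ2) (by linarith)
      have hη1 : η ≤ δ1 := by rw [hη]; exact (min_le_left _ _).trans (min_le_left _ _)
      have hη2 : η ≤ δ2 := by rw [hη]; exact (min_le_left _ _).trans (min_le_right _ _)
      have hη3 : η ≤ (2 - |x - y|) / 2 := by rw [hη]; exact min_le_right _ _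
      obtain ⟨q1, hq1, hq1'⟩ := exists_rat_btwn (show x < x + η by linarith)
      obtain ⟨q2, hq2, hq2'⟩ := exists_rat_btwn (show y < y + η by linarith)
      have m1 : (q1 : ℝ) ∈ J := adm_up hJ hx hq1.le
      have m2 : (q2 : ℝ) ∈ J := adm_up hJ hy hq2.le
      have m3 : |(q1 : ℝ) - q2| < 2 := by
        have e1 : (q1 : ℝ) - q2 = (x - y) + ((q1 - x) - (q2 - y)) := by ring
        rw [e1]
        refine (abs_add_le _ _).trans_lt ?_
        have e2 : |((q1 : ℝ) - x) - (q2 - y)| ≤ η := by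
          rw [abs_le]
          constructor <;> linarith
        linarith
      have n1 := k1 q1 m1 (by
        rw [Real.dist_eq, abs_of_pos (by linarith)]
        linarith)
      have n2 := k2 q2 m2 (by
        rw [Real.dist_eq, abs_of_pos (by linarith)]
        linarith)
      have n3 := h1 q1 q2 m1 m2 m3
      rw [dist_eq_norm] at n1 n2
      have e1 : f (x + s) - f x - (f (y + s) - f y)
          = -(f (q1 + s) - f q1 - (f (x + s) - f x)) + (f (q2 + s) - f q2 - (f (y + s) - f y))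
            + (f (q1 + s) - f q1 - (f (q2 + s) - f q2)) := by abel
      rw [e1]
      have m4 := norm_add₃_le (a := -(f (q1 + s) - f q1 - (f (x + s) - f x)))
        (b := (f (q2 + s) - f q2 - (f (y + s) - f y)))
        (c := (f (q1 + s) - f q1 - (f (q2 + s) - f q2)))
      rw [norm_neg] at m4
      linarith
    · intro q1 q2 m1 m2 m3
      exact h1 q1 m1 q2 m2 m3

/-- averages of uniformly continuous functions are uniformly continuous -/
lemma uc_int {w : ℝ → ℝ → X} {h K : ℝ} (hh : 0 < h)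
    (h1 : ∀ s, 0 < s → s ≤ h → UniformContinuousOn (w s) J)
    (h2 : ∀ t ∈ J, IntervalIntegrable (fun s => w s t) volume 0 h)
    (h3 : ∀ s, 0 < s → s ≤ h → ∀ x ∈ J, ∀ y ∈ J, |x - y| < 1 / 2 → ‖w s x - w s y‖ ≤ K) :
    UniformContinuousOn (fun t => ∫ s in (0 : ℝ)..h, w s t) J := by
  rw [Metric.uniformContinuousOn_iff]
  intro ε hε
  by_contra hcon
  push Not at hcon
  have hx : ∀ n : ℕ, ∃ x y : ℝ, x ∈ J ∧ y ∈ J ∧ dist x y < 1 / ((n : ℝ) + 2) ∧
      ε ≤ dist (∫ s in (0 : ℝ)..h, w s x) (∫ s in (0 : ℝ)..h, w s y) := by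
    intro n
    obtain ⟨x, hx, y, hy, h1, h2⟩ := hcon (1 / ((n : ℝ) + 2)) (by positivity)
    exact ⟨x, y, hx, hy, h1, h2⟩
  choose x y hxJ hyJ hxy hge using hx
  have hhalf : ∀ n, |x n - y n| < 1 / 2 := by
    intro n
    rw [← Real.dist_eq]
    refine (hxy n).trans_le ?_
    have : (0 : ℝ) ≤ n := Nat.cast_nonneg n
    exact one_div_le_one_div_of_le (by norm_num) (by linarith)
  have hlim : Tendsto (fun n => ∫ s in (0 : ℝ)..h, (w s (x n) - w s (y n))) atTop
      (𝓝 (∫ _ in (0 : ℝ)..h, (0 : X))) := by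
    refine intervalIntegral.tendsto_integral_filter_of_dominated_convergence (fun _ => K)
      ?_ ?_ intervalIntegrable_const ?_
    · refine Eventually.of_forall fun n => ?_
      rw [uIoc_of_le hh.le]
      exact (h2 _ (hxJ n)).1.aestronglyMeasurable.sub (h2 _ (hyJ n)).1.aestronglyMeasurable
    · refine Eventually.of_forall fun n => Eventually.of_forall fun s hs => ?_
      rw [uIoc_of_le hh.le] at hs
      exact h3 s hs.1 hs.2 _ (hxJ n) _ (hyJ n) (hhalf n)
    · refine Eventually.of_forall fun s hs => ?_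
      rw [uIoc_of_le hh.le] at hs
      have huc := h1 s hs.1 hs.2
      rw [Metric.uniformContinuousOn_iff] at huc
      rw [Metric.tendsto_atTop]
      intro η hη
      obtain ⟨δ, hδ, h3⟩ := huc η hη
      obtain ⟨N, hN⟩ := exists_nat_one_div_lt hδ
      refine ⟨N, fun n hn => ?_⟩
      rw [dist_zero_right, ← dist_eq_norm]
      refine h3 _ (hxJ n) _ (hyJ n) ((hxy n).trans_le (le_trans ?_ hN.le))
      have : (N : ℝ) ≤ n := by exact_mod_cast hn
      exact one_div_le_one_div_of_le (by positivity) (by linarith)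
  rw [intervalIntegral.integral_zero] at hlim
  have hlim2 := hlim.norm
  rw [norm_zero] at hlim2
  obtain ⟨n, hn⟩ := (hlim2.eventually_lt_const hε).exists
  have hgen := hge n
  rw [dist_eq_norm] at hgen
  rw [intervalIntegral.integral_sub (h2 _ (hxJ n)) (h2 _ (hyJ n))] at hn
  linarith

lemma mh_eq [CompleteSpace X] (hJ : Admissible J) {f : ℝ → X} (hf : IsL1loc J f) {h : ℝ}
    (hh : 0 < h) {t : ℝ} (ht : t ∈ J) : f t - (1 / h) • ∫ s in t..(t + h), f s
      = -((1 / h) • ∫ s in (0 : ℝ)..h, (f (t + s) - f t)) := by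
  have h1 := l1_int hJ hf ht le_rfl hh.le
  rw [intervalIntegral.integral_sub h1 intervalIntegrable_const,
    intervalIntegral.integral_comp_add_left (fun x => f x) t, intervalIntegral.integral_const,
    sub_zero, smul_sub, smul_smul, one_div, inv_mul_cancel₀ hh.ne', one_smul, add_zero]
  abel

theorem result {X : Type*} [NormedAddCommGroup X] [NormedSpace ℂ X] [CompleteSpace X]
    {J : Set ℝ} (hJ : Admissible J) : SatDelta J (fun F : ℝ → X => IsUCgUC J F) := by
  intro f hf hd h hh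
  have h' : ∀ a : ℝ, ∃ u v : ℝ → X, 0 < a → (UniformContinuousOn u J ∧ UniformContinuousOn v J ∧
      ∀ t ∈ J, f (t + a) - f t = u t + g t • v t) := by
    intro a
    by_cases ha : 0 < a
    · obtain ⟨u, v, h⟩ := hd a ha
      exact ⟨u, v, fun _ => h⟩
    · exact ⟨0, 0, fun h => absurd h ha⟩
  choose U V hUV using h'
  have hvb : ∀ b, 0 < b → V b =O[FJ J] (fun _ => (1 : ℝ)) := fun b hb =>
    vbdd hJ (fun a ha => (hUV a ha).1) (fun a ha => (hUV a ha).2.1)
    (fun a ha => (hUV a ha).2.2) hb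
  have hsp : ∀ s : ℝ, 0 < s → _ := fun s hs =>
    split hJ (F := fun t => f (t + s) - f t) (hUV s hs).1 (hUV s hs).2.1 (hvb s hs)
      (hUV s hs).2.2
  have hcont : ∀ a : ℝ, 0 < a → ContinuousOn (fun t => f (t + a) - f t) J := by
    intro a ha
    have h1 : ContinuousOn (fun t => U a t + g t • V a t) J :=
      (hUV a ha).1.continuousOn.add (cont_g.continuousOn.smul (hUV a ha).2.1.continuousOn)
    exact h1.congr (hUV a ha).2.2
  have hosc : ∀ a : ℝ, 0 < a → ∃ K : ℝ, ∀ x ∈ J, ∀ y ∈ J, |x - y| < 2 →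
      ‖(f (x + a) - f x) - (f (y + a) - f y)‖ ≤ K := by
    intro a ha
    obtain ⟨C, hC, h1⟩ := uc_growth hJ (hUV a ha).1
    obtain ⟨C1, h2⟩ := isBigO_iff.1 (hvb a ha)
    obtain ⟨T, hT⟩ := ev_FJ.1 h2
    obtain ⟨-, C2, h3⟩ := luc_of_uc hJ (hUV a ha).2.1 T
    have hvbd : ∀ t ∈ J, ‖V a t‖ ≤ |C1| + |C2| := by
      intro t ht
      by_cases hc : T ≤ |t|
      · have := hT t ht hc
        rw [norm_one, mul_one] at this
        have := le_abs_self C1
        have := abs_nonneg C2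
        linarith
      · push Not at hc
        have := h3 t ⟨ht, abs_le.1 hc.le⟩
        have := le_abs_self C2
        have := abs_nonneg C1
        linarith
    refine ⟨C * (1 + 2) + 2 * (|C1| + |C2|), fun x hx y hy hxy => ?_⟩
    rw [(hUV a ha).2.2 x hx, (hUV a ha).2.2 y hy]
    have e1 : U a x + g x • V a x - (U a y + g y • V a y)
        = (U a x - U a y) + (g x • V a x - g y • V a y) := by abel
    rw [e1]
    have k1 := norm_add_le (U a x - U a y) (g x • V a x - g y • V a y)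
    have k2 := norm_sub_le (g x • V a x) (g y • V a y)
    rw [norm_smul, norm_smul, norm_g, norm_g, one_mul, one_mul] at k2
    have k3 := h1 x hx y hy
    have k4 : C * (1 + |x - y|) ≤ C * (1 + 2) := by gcongr
    have k5 := hvbd x hx
    have k6 := hvbd y hy
    linarith
  obtain ⟨K, hK⟩ := loc_bdd hJ hf hcont hosc h
  have hFi : ∀ t ∈ J, IntervalIntegrable (fun s => f (t + s) - f t) volume 0 h := fun t ht =>
    (l1_int hJ hf ht le_rfl hh.le).sub intervalIntegrable_const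
  have hshd : ∀ x y : ℝ, |x - y| < 1 / 2 → |sh x - sh y| < 2 := by
    intro x y hxy
    have := sh_lip x y
    linarith
  have hshx : ∀ x : ℝ, |x - sh x| < 2 := by
    intro x
    rw [abs_sub_comm, abs_of_nonneg (by linarith [sh_ge x])]
    exact sh_le x
  have hn2 : ‖(2 : ℂ)⁻¹‖ = 1 / 2 := by norm_num
  have uU : UniformContinuousOn (fun t => ∫ s in (0 : ℝ)..h,
      (2 : ℂ)⁻¹ • ((f (t + s) - f t) + (f (sh t + s) - f (sh t)))) J := by
    refine uc_int (K := |K|) hh (fun s hs hsh => (hsp s hs).1) (fun t ht =>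
      ((hFi t ht).add (hFi _ (sh_mem hJ ht))).smul _) ?_
    intro s hs hsh x hx y hy hxy
    have k1 := hK s hs hsh x hx y hy (by linarith)
    have k2 := hK s hs hsh _ (sh_mem hJ hx) _ (sh_mem hJ hy) (hshd x y hxy)
    have e1 : (2 : ℂ)⁻¹ • ((f (x + s) - f x) + (f (sh x + s) - f (sh x)))
        - (2 : ℂ)⁻¹ • ((f (y + s) - f y) + (f (sh y + s) - f (sh y)))
        = (2 : ℂ)⁻¹ • (((f (x + s) - f x) - (f (y + s) - f y))
          + ((f (sh x + s) - f (sh x)) - (f (sh y + s) - f (sh y)))) := by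
      module
    rw [e1, norm_smul, hn2]
    have k3 := norm_add_le ((f (x + s) - f x) - (f (y + s) - f y))
      ((f (sh x + s) - f (sh x)) - (f (sh y + s) - f (sh y)))
    have := le_abs_self K
    linarith
  have uV : UniformContinuousOn (fun t => ∫ s in (0 : ℝ)..h,
      (2 : ℂ)⁻¹ • (gi t • ((f (t + s) - f t) - (f (sh t + s) - f (sh t))))) J := by
    refine uc_int (K := |K|) hh (fun s hs hsh => (hsp s hs).2) (fun t ht =>
      (((hFi t ht).sub (hFi _ (sh_mem hJ ht))).smul _).smul _) ?_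
    intro s hs hsh x hx y hy hxy
    have k1 := hK s hs hsh x hx _ (sh_mem hJ hx) (hshx x)
    have k2 := hK s hs hsh y hy _ (sh_mem hJ hy) (hshx y)
    refine (norm_sub_le _ _).trans ?_
    rw [norm_smul, norm_smul, norm_smul, norm_smul, norm_gi, norm_gi, hn2, one_mul, one_mul]
    have := le_abs_self K
    linarith
  refine ⟨fun t => (-(1 / h : ℝ)) • ∫ s in (0 : ℝ)..h,
      (2 : ℂ)⁻¹ • ((f (t + s) - f t) + (f (sh t + s) - f (sh t))),
    fun t => (-(1 / h : ℝ)) • ∫ s in (0 : ℝ)..h,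
      (2 : ℂ)⁻¹ • (gi t • ((f (t + s) - f t) - (f (sh t + s) - f (sh t)))), ?_, ?_, ?_⟩
  · rw [uniformContinuousOn_iff_restrict] at *
    exact uU.const_smul _
  · rw [uniformContinuousOn_iff_restrict] at *
    exact uV.const_smul _
  · intro t ht
    beta_reduce
    have key : (∫ s in (0 : ℝ)..h, (2 : ℂ)⁻¹ • ((f (t + s) - f t) + (f (sh t + s) - f (sh t))))
        + g t • (∫ s in (0 : ℝ)..h,
          (2 : ℂ)⁻¹ • (gi t • ((f (t + s) - f t) - (f (sh t + s) - f (sh t)))))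
        = ∫ s in (0 : ℝ)..h, (f (t + s) - f t) := by
      rw [← intervalIntegral.integral_smul, ← intervalIntegral.integral_add]
      · refine intervalIntegral.integral_congr fun s _ => ?_
        beta_reduce
        have e1 : (2 : ℂ)⁻¹ • ((f (t + s) - f t) + (f (sh t + s) - f (sh t)))
            + g t • ((2 : ℂ)⁻¹ • (gi t • ((f (t + s) - f t) - (f (sh t + s) - f (sh t)))))
            = (2 : ℂ)⁻¹ • ((f (t + s) - f t) + (f (sh t + s) - f (sh t)))
            + (2 : ℂ)⁻¹ • ((g t * gi t) • ((f (t + s) - f t) - (f (sh t + s) - f (sh t)))) := by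
          module
        rw [e1, g_gi]
        module
      · exact ((hFi t ht).add (hFi _ (sh_mem hJ ht))).smul _
      · exact ((((hFi t ht).sub (hFi _ (sh_mem hJ ht))).smul _).smul _).smul _
    rw [mh_eq hJ hf hh ht, smul_comm (g t), ← smul_add, key, neg_smul]

end Pool.Agent.Results.MP_840fa9_an.UCgUC
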